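import Pool.Agent.Q111.FT.Good
import Pool.Agent.Q241.ZD.Ltwo

/-! # Project FT, job CONV: matrices of operators -/

set_option autoImplicit false
set_option linter.unusedSectionVars false

open scoped Matrix ENNReal InnerProductSpace

namespace Pool.Agent.Q111.FT

open Pool.Agent.H919R4.ZS
open Pool.Agent.Q169.FT

noncomputable section

variable {N : Type} [Group N]

/-- the Hilbert sum of `a` copies of `ℓ²` -/
abbrev HH (N : Type) (a : ℕ) : Type := PiLp 2 (fun _ : Fin a => L2 N)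

/-- the identification with tuples -/
def ce (N : Type) (a : ℕ) : HH N a ≃L[ℂ] (Fin a → L2 N) :=
  PiLp.continuousLinearEquiv 2 ℂ (fun _ : Fin a => L2 N)

/-- the projection -/
def PR (N : Type) {a : ℕ} (i : Fin a) : HH N a →L[ℂ] L2 N :=
  (ContinuousLinearMap.proj i) ∘L (ce N a).toContinuousLinearMap

/-- the inclusion -/
def EI (N : Type) {a : ℕ} (i : Fin a) : L2 N →L[ℂ] HH N a :=
  (ce N a).symm.toContinuousLinearMap ∘L (ContinuousLinearMap.single ℂ (fun _ : Fin a => L2 N) i)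

theorem PR_apply {a : ℕ} (i : Fin a) (v : HH N a) : PR N i v = v i := rfl

theorem EI_apply {a : ℕ} (i j : Fin a) (x : L2 N) :
    (EI N i x) j = (Pi.single i x : Fin a → L2 N) j := rfl

/-- the operator of a matrix -/
def opM {a b : ℕ} (M : Matrix (Fin a) (Fin b) (L2 N →L[ℂ] L2 N)) : HH N b →L[ℂ] HH N a :=
  (ce N a).symm.toContinuousLinearMap ∘L
    (ContinuousLinearMap.pi fun i => ∑ j, (M i j) ∘L (PR N j))

theorem opM_apply {a b : ℕ} (M : Matrix (Fin a) (Fin b) (L2 N →L[ℂ] L2 N)) (v : HH N b)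
    (i : Fin a) : (opM M v) i = act M (fun j => v j) i := by
  unfold opM act
  rw [ContinuousLinearMap.comp_apply]
  show (ContinuousLinearMap.pi fun i => ∑ j, (M i j) ∘L (PR N j)) v i = _
  rw [ContinuousLinearMap.pi_apply, sum_apply]
  rfl

/-- the entries of an operator -/
def ent {a b : ℕ} (T : HH N b →L[ℂ] HH N a) : Matrix (Fin a) (Fin b) (L2 N →L[ℂ] L2 N) :=
  fun i j => PR N i ∘L T ∘L EI N j

theorem ent_apply {a b : ℕ} (T : HH N b →L[ℂ] HH N a) (i : Fin a) (j : Fin b) (x : L2 N) :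
    ent T i j x = (T (EI N j x)) i := rfl

theorem ent_opM {a b : ℕ} (M : Matrix (Fin a) (Fin b) (L2 N →L[ℂ] L2 N)) : ent (opM M) = M := by
  funext i j
  ext1 x
  rw [ent_apply, opM_apply]
  unfold act
  rw [Finset.sum_eq_single j]
  · show (M i j) ((Pi.single j x : Fin b → L2 N) j) = M i j x
    rw [Pi.single_eq_same]
  · intro k _ hk
    show (M i k) ((Pi.single j x : Fin b → L2 N) k) = 0
    rw [Pi.single_eq_of_ne hk, map_zero]
  · intro h
    exact absurd (Finset.mem_univ j) h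

theorem sum_EI {a : ℕ} (v : HH N a) : ∑ j, EI N j (v j) = v := by
  apply (ce N a).injective
  rw [map_sum]
  funext i
  rw [Finset.sum_apply]
  have : ∀ j, (ce N a) (EI N j (v j)) i = (Pi.single j (v j) : Fin a → L2 N) i := fun j => rfl
  rw [Finset.sum_congr rfl fun j _ => this j, Finset.sum_eq_single i]
  · rw [Pi.single_eq_same]
    rfl
  · intro k _ hk
    rw [Pi.single_eq_of_ne hk.symm]
  · intro h
    exact absurd (Finset.mem_univ i) h

theorem opM_ent {a b : ℕ} (T : HH N b →L[ℂ] HH N a) : opM (ent T) = T := by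
  ext1 v
  apply PiLp.ext
  intro i
  rw [opM_apply]
  unfold act
  conv_rhs => rw [← sum_EI v, map_sum]
  have : ∀ (s : Finset (Fin b)) (f : Fin b → HH N a), (∑ j ∈ s, f j) i = ∑ j ∈ s, (f j) i := by
    intro s f
    exact map_sum (PR N i) f s
  rw [this]
  rfl

theorem opM_mul {a b c : ℕ} (M : Matrix (Fin a) (Fin b) (L2 N →L[ℂ] L2 N))
    (K : Matrix (Fin b) (Fin c) (L2 N →L[ℂ] L2 N)) : opM (M * K) = opM M ∘L opM K := by
  ext1 v
  apply PiLp.ext
  intro i
  rw [opM_apply, act_mul, ContinuousLinearMap.comp_apply, opM_apply]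
  congr 1
  funext j
  rw [opM_apply]

theorem opM_inj {a b : ℕ} (M K : Matrix (Fin a) (Fin b) (L2 N →L[ℂ] L2 N)) (h : opM M = opM K) :
    M = K := by
  rw [← ent_opM M, h, ent_opM]

theorem opM_one {a : ℕ} : opM (1 : Matrix (Fin a) (Fin a) (L2 N →L[ℂ] L2 N)) =
    ContinuousLinearMap.id ℂ _ := by
  ext1 v
  apply PiLp.ext
  intro i
  rw [opM_apply, act_one]
  rfl

theorem opM_add {a b : ℕ} (M K : Matrix (Fin a) (Fin b) (L2 N →L[ℂ] L2 N)) :
    opM (M + K) = opM M + opM K := by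
  ext1 v
  apply PiLp.ext
  intro i
  rw [opM_apply, act_add]
  show _ = (opM M v) i + (opM K v) i
  rw [opM_apply, opM_apply]
  rfl

theorem opM_zero {a b : ℕ} : opM (0 : Matrix (Fin a) (Fin b) (L2 N →L[ℂ] L2 N)) = 0 := by
  have := opM_add (0 : Matrix (Fin a) (Fin b) (L2 N →L[ℂ] L2 N)) 0
  rw [add_zero] at this
  exact (left_eq_add).1 this

theorem adj_EI {a : ℕ} (i : Fin a) : ContinuousLinearMap.adjoint (EI N i) = PR N i := by
  symm
  rw [ContinuousLinearMap.eq_adjoint_iff]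
  intro v x
  rw [PiLp.inner_apply, Finset.sum_eq_single i]
  · rw [EI_apply, Pi.single_eq_same, PR_apply]
  · intro k _ hk
    rw [EI_apply, Pi.single_eq_of_ne hk, inner_zero_right]
  · intro h
    exact absurd (Finset.mem_univ i) h

theorem ent_adj {a b : ℕ} (T : HH N b →L[ℂ] HH N a) (i : Fin b) (j : Fin a) :
    ent (ContinuousLinearMap.adjoint T) i j = ContinuousLinearMap.adjoint (ent T j i) := by
  unfold ent
  rw [← adj_EI, ← adj_EI, ContinuousLinearMap.adjoint_comp, ContinuousLinearMap.adjoint_comp,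
    ContinuousLinearMap.adjoint_adjoint]
  rfl

/-! ### The reduced algebra -/

/-- the reduced algebra as a subring of the bounded operators -/
def RR (N : Type) [Group N] : Subring (L2 N →L[ℂ] L2 N) := redCstar N

theorem RR_closed : IsClosed (RR N : Set (L2 N →L[ℂ] L2 N)) :=
  Subring.isClosed_topologicalClosure (groupRing N)

theorem smul_lreg_mem (c : ℂ) (g : N) : c • lregL g ∈ RR N :=
  Subring.le_topologicalClosure (groupRing N) (Subring.subset_closure ⟨c, g, rfl⟩)

theorem lreg_one : lregL (1 : N) = 1 := by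
  ext x h
  rw [lregL_apply]
  simp

theorem smul_mem_RR (c : ℂ) (T : L2 N →L[ℂ] L2 N) (hT : T ∈ RR N) : c • T ∈ RR N := by
  have h1 := (RR N).mul_mem (smul_lreg_mem c (1 : N)) hT
  rw [lreg_one, smul_one_mul] at h1
  exact h1

theorem adj_lreg (g : N) : ContinuousLinearMap.adjoint (lregL g) = lregL g⁻¹ := by
  symm
  rw [ContinuousLinearMap.eq_adjoint_iff]
  intro x y
  rw [lp.inner_eq_tsum, lp.inner_eq_tsum]
  conv_rhs => rw [← (Equiv.mulLeft g).tsum_eq]
  apply tsum_congr
  intro h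
  rw [lregL_apply, lregL_apply]
  simp

theorem adj_L_mem (a : MonoidAlgebra ℤ N) : ContinuousLinearMap.adjoint (L a) ∈ RR N := by
  refine MonoidAlgebra.induction_linear a ?_ ?_ ?_
  · rw [map_zero, map_zero]
    exact (RR N).zero_mem
  · intro x y hx hy
    rw [map_add, map_add]
    exact (RR N).add_mem hx hy
  · intro g c
    rw [L_single, ← Int.cast_smul_eq_zsmul ℂ c, map_smulₛₗ, adj_lreg]
    exact smul_lreg_mem _ _

theorem L_mem (a : MonoidAlgebra ℤ N) : L a ∈ RR N := toOp_mem N a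

/-- the operators all of whose entries are in the reduced algebra -/
def QQ (N : Type) [Group N] (a b : ℕ) : Set (HH N b →L[ℂ] HH N a) :=
  {T | ∀ i j, ent T i j ∈ RR N}

theorem QQ_closed (a b : ℕ) : IsClosed (QQ N a b) := by
  have : QQ N a b = ⋂ i, ⋂ j, {T | ent T i j ∈ RR N} := by
    ext T
    simp [QQ]
  rw [this]
  refine isClosed_iInter fun i => isClosed_iInter fun j => ?_
  apply RR_closed.preimage (f := fun T : HH N b →L[ℂ] HH N a => ent T i j)
  unfold ent
  exact continuous_const.clm_comp (continuous_id.clm_comp continuous_const)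

theorem QQ_one (a : ℕ) : (1 : HH N a →L[ℂ] HH N a) ∈ QQ N a a := by
  intro i j
  have h1 : (1 : HH N a →L[ℂ] HH N a) = opM (1 : Matrix (Fin a) (Fin a) (L2 N →L[ℂ] L2 N)) := by
    rw [opM_one]
    rfl
  rw [h1, ent_opM, Matrix.one_apply]
  split_ifs
  · exact (RR N).one_mem
  · exact (RR N).zero_mem

theorem ent_add {a b : ℕ} (T S : HH N b →L[ℂ] HH N a) : ent (T + S) = ent T + ent S := by
  apply opM_inj
  rw [opM_add, opM_ent, opM_ent, opM_ent]

theorem ent_comp {a b c : ℕ} (T : HH N b →L[ℂ] HH N a) (S : HH N c →L[ℂ] HH N b) :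
    ent (T ∘L S) = ent T * ent S := by
  apply opM_inj
  rw [opM_mul, opM_ent, opM_ent, opM_ent]

theorem QQ_add {a b : ℕ} (T S : HH N b →L[ℂ] HH N a) (hT : T ∈ QQ N a b) (hS : S ∈ QQ N a b) :
    T + S ∈ QQ N a b := by
  intro i j
  rw [ent_add, Matrix.add_apply]
  exact (RR N).add_mem (hT i j) (hS i j)

theorem QQ_comp {a b c : ℕ} (T : HH N b →L[ℂ] HH N a) (S : HH N c →L[ℂ] HH N b)
    (hT : T ∈ QQ N a b) (hS : S ∈ QQ N b c) : T ∘L S ∈ QQ N a c := by
  intro i j
  rw [ent_comp, Matrix.mul_apply]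
  exact (RR N).sum_mem fun k _ => (RR N).mul_mem (hT i k) (hS k j)

theorem QQ_smul {a b : ℕ} (c : ℂ) (T : HH N b →L[ℂ] HH N a) (hT : T ∈ QQ N a b) :
    c • T ∈ QQ N a b := by
  intro i j
  have : ent (c • T) i j = c • ent T i j := by
    ext1 x
    rfl
  rw [this]
  exact smul_mem_RR c _ (hT i j)

end

end Pool.Agent.Q111.FT
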