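import Pool.Agent.Q111.FT.ConvA

/-! # Project FT, job CONV -/

set_option autoImplicit false
set_option linter.unusedSectionVars false

open scoped Matrix ENNReal InnerProductSpace

namespace Pool.Agent.Q111.FT

open Pool.Agent.H919R4.ZS
open Pool.Agent.Q169.FT
open Pool.Agent.TH38.ZT (ExAt ex_indep dd)
open Pool.Agent.TH38.CX (AcyclicGComplex)
open Pool.Agent.Q169.ZD
open Pool.Agent.Q241.ZD (VV VV_apply cc cc_mem VV_cc act_VV)
open ContinuousLinearMap (adjoint)

noncomputable section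

variable {N : Type} [Group N]

/-- the operator of the differential -/
def DD (X : FinRes N) (i : ℕ) : HH N (X.n i) →L[ℂ] HH N (X.n (i + 1)) :=
  opM ((X.d i).map L)

theorem DD_DD (X : FinRes N) (i : ℕ) (v : HH N (X.n i)) : DD X (i + 1) (DD X i v) = 0 := by
  have h1 : DD X (i + 1) ∘L DD X i = 0 := by
    unfold DD
    rw [← opM_mul, dd, opM_zero]
  have h2 := congrArg (fun T => T v) h1
  exact h2

theorem DD_mem (X : FinRes N) (i : ℕ) : DD X i ∈ QQ N (X.n (i + 1)) (X.n i) := by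
  intro a b
  unfold DD
  rw [ent_opM, Matrix.map_apply]
  exact L_mem _

theorem adj_DD_mem (X : FinRes N) (i : ℕ) : adjoint (DD X i) ∈ QQ N (X.n i) (X.n (i + 1)) := by
  intro a b
  rw [ent_adj]
  unfold DD
  rw [ent_opM, Matrix.map_apply]
  exact adj_L_mem _

/-- the Laplacian -/
def Lap (X : FinRes N) : ∀ i : ℕ, HH N (X.n i) →L[ℂ] HH N (X.n i)
  | 0 => adjoint (DD X 0) ∘L DD X 0
  | i + 1 => DD X i ∘L adjoint (DD X i) + adjoint (DD X (i + 1)) ∘L DD X (i + 1)

theorem Lap_mem (X : FinRes N) (i : ℕ) : Lap X i ∈ QQ N (X.n i) (X.n i) := by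
  cases i with
  | zero => exact QQ_comp _ _ (adj_DD_mem X 0) (DD_mem X 0)
  | succ i =>
    exact QQ_add _ _ (QQ_comp _ _ (DD_mem X i) (adj_DD_mem X i))
      (QQ_comp _ _ (adj_DD_mem X (i + 1)) (DD_mem X (i + 1)))

theorem DD_Lap (X : FinRes N) (i : ℕ) (v : HH N (X.n i)) :
    DD X i (Lap X i v) = Lap X (i + 1) (DD X i v) := by
  have h2 : Lap X (i + 1) (DD X i v) = DD X i (adjoint (DD X i) (DD X i v)) := by
    show DD X i (adjoint (DD X i) (DD X i v)) +
      adjoint (DD X (i + 1)) (DD X (i + 1) (DD X i v)) = _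
    rw [DD_DD, map_zero, add_zero]
  rw [h2]
  cases i with
  | zero => rfl
  | succ i =>
    show DD X (i + 1) (DD X i (adjoint (DD X i) v) +
      adjoint (DD X (i + 1)) (DD X (i + 1) v)) = _
    rw [map_add, DD_DD, zero_add]

/-- exactness of the complex of operators -/
structure Ex (X : FinRes N) : Prop where
  inj : ∀ v, DD X 0 v = 0 → v = 0
  ex : ∀ i v, DD X (i + 1) v = 0 → ∃ w, DD X i w = v

theorem Ex.closed {X : FinRes N} (h : Ex X) (i : ℕ) : IsClosed (Set.range (DD X i)) := by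
  have h1 : Set.range (DD X i) = DD X (i + 1) ⁻¹' {0} := by
    ext v
    simp only [Set.mem_range, Set.mem_preimage, Set.mem_singleton_iff]
    constructor
    · rintro ⟨w, rfl⟩
      exact DD_DD X i w
    · exact h.ex i v
  rw [h1]
  exact isClosed_singleton.preimage (DD X (i + 1)).continuous

theorem Ex.gap {X : FinRes N} (h : Ex X) (i : ℕ) :
    ∃ ε : ℝ, 0 < ε ∧ ∀ v, ε * ‖v‖ ^ 2 ≤ (inner ℂ (Lap X i v) v).re := by
  cases i with
  | zero =>
    obtain ⟨ε, hε, hv⟩ := gap0 (HH N 0) (HH N (X.n 0)) (HH N (X.n 1)) 0 (DD X 0) (by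
      intro v
      constructor
      · intro h0
        exact ⟨0, (h.inj v h0).symm⟩
      · rintro ⟨w, rfl⟩
        simp) (h.closed 0)
    refine ⟨ε, hε, fun v => ?_⟩
    have h1 := hv v
    have h2 : ‖DD X 0 v‖ ^ 2 = (inner ℂ ((adjoint (DD X 0) ∘L DD X 0) v) v).re :=
      ContinuousLinearMap.apply_norm_sq_eq_inner_adjoint_left (DD X 0) v
    rw [map_zero, h2] at h1
    have h3 : Lap X 0 = adjoint (DD X 0) ∘L DD X 0 := rfl
    rw [h3]
    simpa using h1
  | succ i =>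
    obtain ⟨ε, hε, hv⟩ := gap0 (HH N (X.n i)) (HH N (X.n (i + 1))) (HH N (X.n (i + 1 + 1)))
      (DD X i) (DD X (i + 1)) (by
      intro v
      constructor
      · exact h.ex i v
      · rintro ⟨w, rfl⟩
        exact DD_DD X i w) (h.closed (i + 1))
    refine ⟨ε, hε, fun v => ?_⟩
    have h1 := hv v
    have h2 : ‖DD X (i + 1) v‖ ^ 2 =
        (inner ℂ ((adjoint (DD X (i + 1)) ∘L DD X (i + 1)) v) v).re :=
      ContinuousLinearMap.apply_norm_sq_eq_inner_adjoint_left (DD X (i + 1)) v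
    have h3 : ‖adjoint (DD X i) v‖ ^ 2 =
        (inner ℂ ((adjoint (adjoint (DD X i)) ∘L adjoint (DD X i)) v) v).re :=
      ContinuousLinearMap.apply_norm_sq_eq_inner_adjoint_left (adjoint (DD X i)) v
    rw [ContinuousLinearMap.adjoint_adjoint] at h3
    rw [h2, h3] at h1
    refine h1.trans (le_of_eq ?_)
    rw [← Complex.add_re, ← inner_add_left]
    rfl

theorem Ex.inv {X : FinRes N} (h : Ex X) (i : ℕ) :
    ∃ G ∈ QQ N (X.n i) (X.n i), Lap X i * G = 1 ∧ G * Lap X i = 1 := by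
  obtain ⟨ε, hε, hv⟩ := h.gap i
  exact neu0 (HH N (X.n i)) (Lap X i) ε hε hv (QQ N (X.n i) (X.n i)) (QQ_closed _ _) (QQ_one _)
    (Lap_mem X i) (fun x hx y hy => QQ_add x y hx hy) (fun x hx y hy => QQ_comp x y hx hy)
    (fun a x hx => QQ_smul _ x hx)

theorem lift_ident0 {S T : Type*} [Ring S] [Ring T] (ψ : S →+* T) (hψ : Function.Injective ψ)
    {a b : ℕ} (P : Matrix (Fin a) (Fin b) S) (Q : Matrix (Fin b) (Fin a) S)
    (h : P.map ψ * Q.map ψ = 1) : P * Q = 1 := by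
  apply Matrix.map_injective hψ
  show (P * Q).map ψ = (1 : Matrix (Fin a) (Fin a) S).map ψ
  rw [Matrix.map_mul, h, Pool.Agent.H919R4.ZS.map_one']

theorem lift_ident {S T : Type*} [Ring S] [Ring T] (ψ : S →+* T) (hψ : Function.Injective ψ)
    {a b c : ℕ} (P : Matrix (Fin a) (Fin b) S) (Q : Matrix (Fin b) (Fin a) S)
    (P' : Matrix (Fin a) (Fin c) S) (Q' : Matrix (Fin c) (Fin a) S)
    (h : P.map ψ * Q.map ψ + P'.map ψ * Q'.map ψ = 1) : P * Q + P' * Q' = 1 := by
  apply Matrix.map_injective hψ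
  show (P * Q + P' * Q').map ψ = (1 : Matrix (Fin a) (Fin a) S).map ψ
  rw [Matrix.map_add _ (map_add _), Matrix.map_mul, Matrix.map_mul, h,
    Pool.Agent.H919R4.ZS.map_one']

theorem vec0 {S : Type*} [Ring S] {a b : ℕ} (P : Matrix (Fin a) (Fin b) S)
    (Q : Matrix (Fin b) (Fin a) S) (h : P * Q = 1) (x : Fin a → S) : (x ᵥ* P) ᵥ* Q = x := by
  rw [Matrix.vecMul_vecMul, h, Matrix.vecMul_one]

theorem vec1 {S : Type*} [Ring S] {a b c : ℕ} (P : Matrix (Fin a) (Fin b) S)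
    (Q : Matrix (Fin b) (Fin a) S) (P' : Matrix (Fin a) (Fin c) S) (Q' : Matrix (Fin c) (Fin a) S)
    (h : P * Q + P' * Q' = 1) (x : Fin a → S) (hx : x ᵥ* P = 0) : (x ᵥ* P') ᵥ* Q' = x := by
  conv_rhs => rw [← Matrix.vecMul_one x, ← h, Matrix.vecMul_add, ← Matrix.vecMul_vecMul, hx,
    Matrix.zero_vecMul, zero_add]
  rw [Matrix.vecMul_vecMul]

theorem valR_inj : Function.Injective (valR (G := N)) := by
  intro x y hxy
  exact Subtype.ext hxy

theorem lift_mat {a b : ℕ} (T : HH N b →L[ℂ] HH N a) (hT : T ∈ QQ N a b) :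
    ∃ S : Matrix (Fin a) (Fin b) (RedC N), S.map (valR (G := N)) = ent T :=
  ⟨fun i j => (⟨ent T i j, hT i j⟩ : redCstar N), rfl⟩

theorem Ex.contr {X : FinRes N} (h : Ex X) :
    ∃ S : ∀ i, Matrix (Fin (X.n i)) (Fin (X.n (i + 1))) (RedC N),
      S 0 * (X.d 0).map (toRed N) = 1 ∧
      ∀ i, (X.d i).map (toRed N) * S i + S (i + 1) * (X.d (i + 1)).map (toRed N) = 1 := by
  choose G hGQ hG1 hG2 using h.inv
  have g1 : ∀ i v, Lap X i (G i v) = v := fun i v => congrArg (fun T => T v) (hG1 i)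
  have g2 : ∀ i v, G i (Lap X i v) = v := fun i v => congrArg (fun T => T v) (hG2 i)
  have hDG : ∀ i v, DD X i (G i v) = G (i + 1) (DD X i v) := by
    intro i v
    rw [← g2 (i + 1) (DD X i (G i v)), ← DD_Lap, g1]
  choose S hS using fun i => lift_mat (adjoint (DD X i) ∘L G (i + 1))
    (QQ_comp _ _ (adj_DD_mem X i) (hGQ (i + 1)))
  have key : ∀ i, ((X.d i).map (toRed N)).map (valR (G := N)) = (X.d i).map (L (G := N)) := by
    intro i
    refine funext fun j => funext fun k => ?_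
    exact coe_toRed (X.d i j k)
  refine ⟨S, ?_, ?_⟩
  · apply lift_ident0 (valR (G := N)) valR_inj
    rw [key, hS]
    apply opM_inj
    rw [opM_mul, opM_ent, opM_one]
    ext1 v
    show adjoint (DD X 0) (G 1 (DD X 0 v)) = v
    rw [← hDG]
    exact g1 0 v
  · intro i
    apply lift_ident (valR (G := N)) valR_inj
    rw [key, key, hS, hS]
    apply opM_inj
    rw [opM_add, opM_mul, opM_mul, opM_ent, opM_ent, opM_one]
    ext1 v
    show DD X i (adjoint (DD X i) (G (i + 1) v)) +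
      adjoint (DD X (i + 1)) (G (i + 1 + 1) (DD X (i + 1) v)) = v
    rw [← hDG]
    exact g1 (i + 1) v

theorem Ex.exAt {X : FinRes N} (h : Ex X) (i : ℕ) : ExAt X (toRed N) i := by
  obtain ⟨S, h0, h1⟩ := h.contr
  cases i with
  | zero => exact fun x => ⟨_, vec0 _ _ h0 x⟩
  | succ i => exact fun x hx => ⟨_, vec1 _ _ _ _ (h1 i) x hx⟩

theorem ex_of (U : AcyclicGComplex N) (X : FinRes N) (ψ : ∀ i, U.E i ≃ N × Fin (X.n i))
    (hψ : ∀ i (e : U.E (i + 1)) (f : U.E i), (U.bd i (Finsupp.single e 1)) f =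
      (X.d i (ψ (i + 1) e).2 (ψ i f).2).coeff ((ψ (i + 1) e).1⁻¹ * (ψ i f).1))
    (h : L2Ex U.E (fun i => U.bd i)) : Ex X := by
  have key : ∀ i (v : HH N (X.n i)) (e : U.E (i + 1)),
      (DD X i v) (ψ (i + 1) e).2 ((ψ (i + 1) e).1⁻¹) =
        (U.bd i (Finsupp.single e 1)).sum
          fun f n => ((n : ℤ) : ℂ) * cc (ψ i) (fun j => v j) f := by
    intro i v e
    have h1 := act_VV (ψ i) (ψ (i + 1)) (fun x => U.bd i x) (X.d i) (hψ i)
      (cc (ψ i) fun j => v j) (cc_mem _ _) e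
    rw [VV_cc] at h1
    unfold DD
    rw [opM_apply]
    exact h1
  have zero : ∀ i (v : HH N (X.n i)), DD X i v = 0 → ∀ e : U.E (i + 1),
      ((U.bd i (Finsupp.single e 1)).sum
          fun f n => ((n : ℤ) : ℂ) * cc (ψ i) (fun j => v j) f) = 0 := by
    intro i v hv e
    rw [← key, hv]
    rfl
  have back : ∀ i (v : HH N (X.n i)) (j : Fin (X.n i)) (g : N),
      v j g = cc (ψ i) (fun j => v j) ((ψ i).symm (g⁻¹, j)) := by
    intro i v j g
    unfold cc
    rw [Equiv.apply_symm_apply, inv_inv]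
  constructor
  · intro v hv
    have h1 := h.1 (cc (ψ 0) fun j => v j) (cc_mem _ _) (zero 0 v hv)
    apply PiLp.ext
    intro j
    apply lp.ext
    funext g
    rw [back 0 v j g, h1]
    rfl
  · intro i v hv
    obtain ⟨c', hc', h1⟩ := h.2 i (cc (ψ (i + 1)) fun j => v j) (cc_mem _ _) (zero (i + 1) v hv)
    refine ⟨(ce N (X.n i)).symm (VV (ψ i) c' hc'), ?_⟩
    apply PiLp.ext
    intro j
    apply lp.ext
    funext g
    rw [back (i + 1) v j g, h1]
    have h2 := act_VV (ψ i) (ψ (i + 1)) (fun x => U.bd i x) (X.d i) (hψ i) c' hc'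
      ((ψ (i + 1)).symm (g⁻¹, j))
    rw [Equiv.apply_symm_apply] at h2
    simp only [inv_inv] at h2
    rw [← h2]
    unfold DD
    rw [opM_apply]
    rfl

theorem conv (hr : Pool.Agent.Q169.ZD.S_RES) (_hg : S_GAP) (_hn : S_NEU) : S_CONV := by
  intro N _ U hfree c rep hrep hL X i
  obtain ⟨X', ψ, -, hψ⟩ := hr N U hfree c rep hrep
  exact ex_indep X' X (toRed N) i ((ex_of U X' ψ hψ hL).exAt i)

end

end Pool.Agent.Q111.FT
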