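import Mathlib

/-! # Project FT, jobs GAP and NEU, Hilbert space lemmas -/

set_option autoImplicit false

namespace Pool.Agent.Q111.FT

open scoped InnerProductSpace

theorem gap0 (H₁ H₂ H₃ : Type) [NormedAddCommGroup H₁] [InnerProductSpace ℂ H₁] [CompleteSpace H₁]
    [NormedAddCommGroup H₂] [InnerProductSpace ℂ H₂] [CompleteSpace H₂]
    [NormedAddCommGroup H₃] [InnerProductSpace ℂ H₃] [CompleteSpace H₃]
    (A : H₁ →L[ℂ] H₂) (B : H₂ →L[ℂ] H₃)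
    (hAB : ∀ v, B v = 0 ↔ ∃ w, A w = v) (hB : IsClosed (Set.range B)) :
    ∃ ε : ℝ, 0 < ε ∧ ∀ v, ε * ‖v‖ ^ 2 ≤ ‖ContinuousLinearMap.adjoint A v‖ ^ 2 + ‖B v‖ ^ 2 := by
  obtain ⟨K, hK⟩ : ∃ K : Submodule ℂ H₂, K = LinearMap.ker (B : H₂ →ₗ[ℂ] H₃) := ⟨_, rfl⟩
  have memK : ∀ v, v ∈ K ↔ B v = 0 := by
    intro v
    rw [hK]
    exact LinearMap.mem_ker
  have hKc : IsClosed (K : Set H₂) := by
    have : (K : Set H₂) = B ⁻¹' {0} := by
      ext v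
      simp [memK]
    rw [this]
    exact isClosed_singleton.preimage B.continuous
  have : CompleteSpace K := hKc.completeSpace_coe
  -- first bound
  obtain ⟨C, hC, hC'⟩ : ∃ C > 0, ∀ v ∈ K, ‖v‖ ≤ C * ‖ContinuousLinearMap.adjoint A v‖ := by
    obtain ⟨C, hC, h⟩ := ContinuousLinearMap.exists_preimage_norm_le
      (A.codRestrict K (fun w => (memK _).2 ((hAB _).2 ⟨w, rfl⟩))) (by
        rintro ⟨v, hv⟩
        obtain ⟨w, hw⟩ := (hAB v).1 ((memK v).1 hv)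
        exact ⟨w, Subtype.ext hw⟩)
    refine ⟨C, hC, fun v hv => ?_⟩
    obtain ⟨w, hw, hwn⟩ := h ⟨v, hv⟩
    have hw' : A w = v := congrArg Subtype.val hw
    have hwn' : ‖w‖ ≤ C * ‖v‖ := hwn
    rcases (norm_nonneg v).eq_or_lt with h0 | h0
    · rw [← h0]
      positivity
    have h1 : ‖v‖ * ‖v‖ ≤ ‖ContinuousLinearMap.adjoint A v‖ * ‖w‖ := by
      have h2 : ⟪ContinuousLinearMap.adjoint A v, w⟫_ℂ = ⟪v, v⟫_ℂ := by
        rw [ContinuousLinearMap.adjoint_inner_left, hw']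
      have h3 := norm_inner_le_norm (𝕜 := ℂ) (ContinuousLinearMap.adjoint A v) w
      rw [h2, inner_self_eq_norm_sq_to_K] at h3
      simpa [pow_two] using h3
    have h4 : ‖v‖ * ‖v‖ ≤ (C * ‖ContinuousLinearMap.adjoint A v‖) * ‖v‖ := by
      calc ‖v‖ * ‖v‖ ≤ ‖ContinuousLinearMap.adjoint A v‖ * ‖w‖ := h1
        _ ≤ ‖ContinuousLinearMap.adjoint A v‖ * (C * ‖v‖) :=
          mul_le_mul_of_nonneg_left hwn' (norm_nonneg _)
        _ = _ := by ring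
    exact le_of_mul_le_mul_right h4 h0
  -- second bound
  obtain ⟨C₂, hC₂, hC₂'⟩ : ∃ C > 0, ∀ v ∈ Kᗮ, ‖v‖ ≤ C * ‖B v‖ := by
    have hBc : IsClosed ((LinearMap.range (B : H₂ →ₗ[ℂ] H₃) : Submodule ℂ H₃) : Set H₃) := by
      have : ((LinearMap.range (B : H₂ →ₗ[ℂ] H₃) : Submodule ℂ H₃) : Set H₃) = Set.range B := by
        ext y
        simp
      rw [this]
      exact hB
    have : CompleteSpace (LinearMap.range (B : H₂ →ₗ[ℂ] H₃)) := hBc.completeSpace_coe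
    obtain ⟨C, hC, h⟩ := ContinuousLinearMap.exists_preimage_norm_le
      (B.codRestrict (LinearMap.range (B : H₂ →ₗ[ℂ] H₃)) (fun w => ⟨w, rfl⟩)) (by
        rintro ⟨v, w, hw⟩
        exact ⟨w, Subtype.ext hw⟩)
    refine ⟨C, hC, fun v hv => ?_⟩
    obtain ⟨w, hw, hwn⟩ := h ⟨B v, v, rfl⟩
    have hw' : B w = B v := congrArg Subtype.val hw
    have hwn' : ‖w‖ ≤ C * ‖B v‖ := hwn
    have h1 : v - w ∈ K := by
      rw [memK, map_sub, hw', sub_self]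
    have h2 : ⟪v - w, v⟫_ℂ = 0 := (Submodule.mem_orthogonal K v).1 hv _ h1
    rw [inner_sub_left, sub_eq_zero] at h2
    have h3 := norm_inner_le_norm (𝕜 := ℂ) w v
    rw [← h2, inner_self_eq_norm_sq_to_K] at h3
    rcases (norm_nonneg v).eq_or_lt with h0 | h0
    · rw [← h0]
      positivity
    have h4 : ‖v‖ * ‖v‖ ≤ ‖w‖ * ‖v‖ := by simpa [pow_two] using h3
    exact (le_of_mul_le_mul_right h4 h0).trans hwn'
  refine ⟨1 / (C ^ 2 + C₂ ^ 2), by positivity, fun v => ?_⟩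
  obtain ⟨v₁, hv₁, v₂, hv₂, rfl⟩ := Submodule.exists_add_mem_mem_orthogonal (K := K) v
  have hA2 : ContinuousLinearMap.adjoint A v₂ = 0 := by
    refine ext_inner_right ℂ fun w => ?_
    rw [ContinuousLinearMap.adjoint_inner_left, inner_zero_left]
    exact (Submodule.mem_orthogonal' K v₂).1 hv₂ _ ((memK _).2 ((hAB _).2 ⟨w, rfl⟩))
  have hB1 : B v₁ = 0 := (memK _).1 hv₁
  rw [map_add, map_add, hA2, hB1, add_zero, zero_add]
  have hpy : ‖v₁ + v₂‖ ^ 2 = ‖v₁‖ ^ 2 + ‖v₂‖ ^ 2 := by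
    have := norm_add_sq_eq_norm_sq_add_norm_sq_of_inner_eq_zero (𝕜 := ℂ) v₁ v₂
      ((Submodule.mem_orthogonal K v₂).1 hv₂ _ hv₁)
    nlinarith
  rw [hpy, div_mul_eq_mul_div, one_mul, div_le_iff₀ (by positivity)]
  have h1 := hC' v₁ hv₁
  have h2 := hC₂' v₂ hv₂
  have h1' : ‖v₁‖ ^ 2 ≤ C ^ 2 * ‖ContinuousLinearMap.adjoint A v₁‖ ^ 2 := by
    rw [← mul_pow]
    exact pow_le_pow_left₀ (norm_nonneg _) h1 2
  have h2' : ‖v₂‖ ^ 2 ≤ C₂ ^ 2 * ‖B v₂‖ ^ 2 := by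
    rw [← mul_pow]
    exact pow_le_pow_left₀ (norm_nonneg _) h2 2
  have p1 : 0 ≤ C₂ ^ 2 * ‖ContinuousLinearMap.adjoint A v₁‖ ^ 2 := by positivity
  have p2 : 0 ≤ C ^ 2 * ‖B v₂‖ ^ 2 := by positivity
  linarith

theorem neu0 (H : Type) [NormedAddCommGroup H] [InnerProductSpace ℂ H] [CompleteSpace H]
    (D : H →L[ℂ] H) (ε : ℝ) (hε : 0 < ε)
    (hD : ∀ v, ε * ‖v‖ ^ 2 ≤ (inner ℂ (D v) v).re)
    (Q : Set (H →L[ℂ] H)) (hQ : IsClosed Q) (h1 : 1 ∈ Q) (hDQ : D ∈ Q)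
    (hadd : ∀ x ∈ Q, ∀ y ∈ Q, x + y ∈ Q) (hmul : ∀ x ∈ Q, ∀ y ∈ Q, x * y ∈ Q)
    (hsm : ∀ (a : ℝ), ∀ x ∈ Q, (a : ℂ) • x ∈ Q) :
    ∃ X ∈ Q, D * X = 1 ∧ X * D = 1 := by
  obtain ⟨t, ht⟩ : ∃ t : ℝ, t = ε / (‖D‖ ^ 2 + 1) := ⟨_, rfl⟩
  have htp : 0 < t := by
    rw [ht]
    positivity
  obtain ⟨R, hR⟩ : ∃ R : H →L[ℂ] H, R = 1 - (t : ℂ) • D := ⟨_, rfl⟩
  have hRn : ‖R‖ < 1 := by
    have hb : ∀ v, ‖R v‖ ^ 2 ≤ (1 - t * ε) * ‖v‖ ^ 2 := by
      intro v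
      have e1 : R v = v - (t : ℂ) • D v := by
        rw [hR]
        simp
      have e2 : ‖R v‖ ^ 2 = ‖v‖ ^ 2 - 2 * (t * (inner ℂ (D v) v).re) + t ^ 2 * ‖D v‖ ^ 2 := by
        rw [e1, norm_sub_sq (𝕜 := ℂ), norm_smul, mul_pow, inner_smul_right, ← inner_conj_symm]
        simp
        left
        rw [← inner_conj_symm, Complex.conj_re]
      have h3 : ‖D v‖ ^ 2 ≤ ‖D‖ ^ 2 * ‖v‖ ^ 2 := by
        rw [← mul_pow]
        exact pow_le_pow_left₀ (norm_nonneg _) (D.le_opNorm v) 2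
      have h4 : t ^ 2 * ‖D‖ ^ 2 ≤ t * ε := by
        have : t * (‖D‖ ^ 2 + 1) = ε := by
          rw [ht]
          field_simp
        nlinarith
      have h5 := hD v
      have h6 : t ^ 2 * ‖D v‖ ^ 2 ≤ (t * ε) * ‖v‖ ^ 2 := by
        calc t ^ 2 * ‖D v‖ ^ 2 ≤ t ^ 2 * (‖D‖ ^ 2 * ‖v‖ ^ 2) :=
              mul_le_mul_of_nonneg_left h3 (by positivity)
          _ = (t ^ 2 * ‖D‖ ^ 2) * ‖v‖ ^ 2 := by ring
          _ ≤ _ := mul_le_mul_of_nonneg_right h4 (by positivity)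
      have h7 : t * (ε * ‖v‖ ^ 2) ≤ t * (inner ℂ (D v) v).re :=
        mul_le_mul_of_nonneg_left h5 htp.le
      rw [e2]
      nlinarith
    have hle : ‖R‖ ≤ √(1 - t * ε) := by
      apply ContinuousLinearMap.opNorm_le_bound _ (Real.sqrt_nonneg _)
      intro v
      have h2 := Real.abs_le_sqrt (hb v)
      rw [abs_of_nonneg (norm_nonneg _)] at h2
      rw [Real.sqrt_mul', Real.sqrt_sq (norm_nonneg _)] at h2
      · exact h2
      · positivity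
    refine hle.trans_lt ?_
    rw [Real.sqrt_lt' one_pos]
    nlinarith [mul_pos htp hε]
  have hQR : R ∈ Q := by
    rw [hR, sub_eq_add_neg, ← neg_smul]
    apply hadd _ h1
    have := hsm (-t) D hDQ
    simpa using this
  have hpow : ∀ n : ℕ, R ^ n ∈ Q := by
    intro n
    induction n with
    | zero => simpa using h1
    | succ n ih =>
      rw [pow_succ]
      exact hmul _ ih _ hQR
  have hsum : ∀ n : ℕ, ∑ i ∈ Finset.range n, R ^ i ∈ Q := by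
    intro n
    induction n with
    | zero =>
      have := hsm 0 1 h1
      simpa using this
    | succ n ih =>
      rw [Finset.sum_range_succ]
      exact hadd _ ih _ (hpow n)
  have hS := (summable_geometric_of_norm_lt_one hRn).hasSum
  have hlim : ∑' n, R ^ n ∈ Q :=
    hQ.mem_of_tendsto hS.tendsto_sum_nat (Filter.Eventually.of_forall hsum)
  refine ⟨(t : ℂ) • ∑' n, R ^ n, hsm t _ hlim, ?_, ?_⟩
  · have := mul_neg_geom_series R hRn
    have e : (1 : H →L[ℂ] H) - R = (t : ℂ) • D := by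
      rw [hR]
      abel
    rw [e] at this
    rw [← this, mul_smul_comm, smul_mul_assoc]
  · have := geom_series_mul_neg R hRn
    have e : (1 : H →L[ℂ] H) - R = (t : ℂ) • D := by
      rw [hR]
      abel
    rw [e] at this
    rw [← this, mul_smul_comm, smul_mul_assoc]

end Pool.Agent.Q111.FT
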