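import Pool.Agent.Q169.FT.Stm
import Pool.Agent.Q111.FT.Gap0

/-! # Project FT, jobs GAP, NEU, TRANS -/

set_option autoImplicit false

namespace Pool.Agent.Q111.FT

open Pool.Agent.Q169.FT

theorem gap : S_GAP := by
  intro H₁ H₂ H₃ _ _ _ _ _ _ _ _ _ A B hAB hB
  exact gap0 H₁ H₂ H₃ A B hAB hB

theorem neu : S_NEU := by
  intro H _ _ _ D ε hε _ hD Q hQ h1 hDQ hadd hmul hsm
  exact neu0 H D ε hε hD Q hQ h1 hDQ hadd hmul hsm

theorem mem_extend {A B : Type} (ι : A → B) (hι : Function.Injective ι) (c : A → ℂ)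
    (hc : Memℓp c 2) : Memℓp (Function.extend ι c 0) 2 := by
  rw [memℓp_gen_iff (by norm_num)] at hc ⊢
  rw [← hι.summable_iff]
  · refine hc.congr fun a => ?_
    simp only [Function.comp_apply]
    rw [hι.extend_apply]
  · intro x hx
    rw [Function.extend_apply' _ _ _ (by simpa using hx)]
    simp

theorem mem_comp {A B : Type} (ι : A → B) (hι : Function.Injective ι) (c : B → ℂ)
    (hc : Memℓp c 2) : Memℓp (fun a => c (ι a)) 2 := by
  rw [memℓp_gen_iff (by norm_num)] at hc ⊢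
  exact hc.comp_injective hι

theorem sum_map {A B : Type} (ι : A → B) (x : A →₀ ℤ) (c : B → ℂ) :
    ((x.mapDomain ι).sum fun f n => ((n : ℤ) : ℂ) * c f) =
      x.sum fun f n => ((n : ℤ) : ℂ) * c (ι f) := by
  rw [Finsupp.sum_mapDomain_index]
  · intro b
    simp
  · intro b m n
    push_cast
    ring

theorem cob_map {N L : Type} [Group N] [Group L] (U : Pool.Agent.TH38.CX.AcyclicGComplex N)
    (V : Pool.Agent.TH38.CX.AcyclicGComplex L) (ι : ∀ i, V.E i → U.E i)
    (hbd : ∀ i (e : V.E (i + 1)), U.bd i (Finsupp.single (ι (i + 1) e) 1) =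
      (V.bd i (Finsupp.single e 1)).mapDomain (ι i)) (i : ℕ) (c : U.E i → ℂ) (e : V.E (i + 1)) :
    cob (fun i (e : U.E (i + 1)) => U.bd i (Finsupp.single e 1)) i c (ι (i + 1) e) =
      (V.bd i (Finsupp.single e 1)).sum fun f n => ((n : ℤ) : ℂ) * c (ι i f) := by
  unfold cob
  show (U.bd i (Finsupp.single (ι (i + 1) e) 1)).sum (fun f n => ((n : ℤ) : ℂ) * c f) = _
  rw [hbd, sum_map]

theorem trans : S_TRANS := by
  intro N L _ _ U V ι hι hbd hex
  obtain ⟨h0, hs⟩ := hex
  refine ⟨?_, ?_⟩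
  · intro c hc hz
    have h1 := h0 (Function.extend (ι 0) c 0) (mem_extend _ (hι 0) c hc) (by simp) (by
      rintro _ ⟨e, rfl⟩
      rw [cob_map U V ι hbd, ← hz e]
      apply Finsupp.sum_congr
      intro f _
      rw [(hι 0).extend_apply])
    funext e
    have h2 := h1 (ι 0 e) ⟨e, rfl⟩
    rw [(hι 0).extend_apply] at h2
    exact h2
  · intro i c hc hz
    obtain ⟨c', h1, -, h2⟩ := hs i (Function.extend (ι (i + 1)) c 0)
      (mem_extend _ (hι (i + 1)) c hc) (by simp) (by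
        rintro _ ⟨e, rfl⟩
        rw [cob_map U V ι hbd, ← hz e]
        apply Finsupp.sum_congr
        intro f _
        rw [(hι (i + 1)).extend_apply])
    refine ⟨fun e => c' (ι i e), mem_comp _ (hι i) c' h1, fun e => ?_⟩
    have h3 := h2 (ι (i + 1) e) ⟨e, rfl⟩
    rw [(hι (i + 1)).extend_apply] at h3
    rw [h3, cob_map U V ι hbd]

end Pool.Agent.Q111.FT
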