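import Pool.Agent.Q111.FT.Schur

/-! # Project FT, job GOOD -/

set_option autoImplicit false

namespace Pool.Agent.Q111.FT

open Pool.Agent.Q169.FT
open Pool.Agent.TH38.CX (AcyclicGComplex)

section

variable {N : Type} [Group N] (U : AcyclicGComplex N)

theorem bd_single_sum (i : ℕ) (x : U.E (i + 1) →₀ ℤ) :
    U.bd i x = x.sum fun f n => n • U.bd i (Finsupp.single f 1) := by
  conv_lhs => rw [← Finsupp.sum_single x]
  unfold Finsupp.sum
  rw [map_sum]
  apply Finset.sum_congr rfl
  intro f _
  simp only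
  rw [← map_zsmul (U.bd i), Finsupp.smul_single, smul_eq_mul, mul_one]

theorem bd_smul_single (i : ℕ) (n : N) (e : U.E (i + 1)) :
    U.bd i (Finsupp.single (n • e) 1) = (U.bd i (Finsupp.single e 1)).mapDomain (fun e => n • e) := by
  rw [← U.bd_smul, Finsupp.mapDomain_single]

theorem smul_inj (i : ℕ) (n : N) : Function.Injective (fun e : U.E i => n • e) :=
  MulAction.injective n

theorem bd_coeff (i : ℕ) (n : N) (e : U.E (i + 1)) (f : U.E i) :
    U.bd i (Finsupp.single (n • e) 1) (n • f) = U.bd i (Finsupp.single e 1) f := by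
  rw [bd_smul_single]
  exact Finsupp.mapDomain_apply (smul_inj U i n) _ _

theorem abs_sum_smul (i : ℕ) (n : N) (e : U.E (i + 1)) :
    ((U.bd i (Finsupp.single (n • e) 1)).sum fun _ n => |n|) =
      (U.bd i (Finsupp.single e 1)).sum fun _ n => |n| := by
  rw [bd_smul_single, Finsupp.sum_mapDomain_index_inj (smul_inj U i n)]

theorem good : S_GOOD := by
  intro N _ U hfree c rep hrep
  classical
  refine ⟨?_, ?_⟩
  · intro i c
    funext e
    rw [Pi.zero_apply, cob_eq, ev_apply]
    have h1 : (U.bd (i + 1) (Finsupp.single e 1)).sum (fun f n => ((n : ℤ) : ℂ) *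
        cob (fun i (e : U.E (i + 1)) => U.bd i (Finsupp.single e 1)) i c f) =
        ev c (U.bd i (U.bd (i + 1) (Finsupp.single e 1))) := by
      rw [bd_single_sum U i (U.bd (i + 1) (Finsupp.single e 1)), ev_sum]
      rfl
    rw [h1, (U.exact_succ i _).2 ⟨_, rfl⟩, map_zero]
  · intro i v hv
    have hor : ∀ (j : ℕ) (e : U.E j), ∃ (a : Fin (c j)) (n : N), e = n • rep j a := by
      intro j e
      obtain ⟨a, ⟨n, hn⟩, -⟩ := hrep j e
      exact ⟨a, n, hn.symm⟩
    -- the bound for the rows
    obtain ⟨m₁, hm₁⟩ : ∃ m₁ : ℕ, ∀ e : U.E (i + 1),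
        ((U.bd i (Finsupp.single e 1)).sum fun _ n => |n|) ≤ m₁ := by
      refine ⟨∑ a, ((U.bd i (Finsupp.single (rep (i + 1) a) 1)).sum fun _ n => |n|).toNat, ?_⟩
      intro e
      obtain ⟨a, n, rfl⟩ := hor (i + 1) e
      rw [abs_sum_smul]
      refine (Int.self_le_toNat _).trans ?_
      exact_mod_cast Finset.single_le_sum
        (f := fun a => ((U.bd i (Finsupp.single (rep (i + 1) a) 1)).sum fun _ n => |n|).toNat)
        (fun _ _ => Nat.zero_le _) (Finset.mem_univ a)
    -- the bound for the columns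
    have hfin : ∀ f : U.E i, {e : U.E (i + 1) | U.bd i (Finsupp.single e 1) f ≠ 0}.Finite := by
      intro f
      have h1 : {e : U.E (i + 1) | U.bd i (Finsupp.single e 1) f ≠ 0} ⊆
          ⋃ a : Fin (c (i + 1)), ⋃ g ∈ (U.bd i (Finsupp.single (rep (i + 1) a) 1)).support,
            (fun k : N => k • rep (i + 1) a) '' {k : N | k⁻¹ • f = g} := by
        intro e he
        obtain ⟨a, n, rfl⟩ := hor (i + 1) e
        simp only [Set.mem_iUnion]
        refine ⟨a, n⁻¹ • f, ?_, n, rfl, rfl⟩
        rw [Finsupp.mem_support_iff, ← bd_coeff U i n, smul_inv_smul]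
        exact he
      refine Set.Finite.subset (Set.finite_iUnion fun a => ?_) h1
      refine Set.Finite.biUnion (Finset.finite_toSet _) fun g _ => ?_
      apply Set.Finite.image
      apply Set.Subsingleton.finite
      intro k hk k' hk'
      simp only [Set.mem_ofPred_eq] at hk hk'
      have h2 : (k' * k⁻¹) • f = f := by
        rw [mul_smul, hk, ← hk', smul_inv_smul]
      have h3 := hfree i _ f h2
      rw [mul_inv_eq_one] at h3
      exact h3.symm
    obtain ⟨m₂, hm₂⟩ : ∃ m₂ : ℕ, ∀ f : U.E i,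
        {e : U.E (i + 1) | U.bd i (Finsupp.single e 1) f ≠ 0}.encard ≤ m₂ := by
      refine ⟨∑ b, {e : U.E (i + 1) | U.bd i (Finsupp.single e 1) (rep i b) ≠ 0}.ncard, ?_⟩
      intro f
      obtain ⟨b, n, rfl⟩ := hor i f
      have h1 : {e : U.E (i + 1) | U.bd i (Finsupp.single e 1) (n • rep i b) ≠ 0} ⊆
          (fun e => n • e) '' {e : U.E (i + 1) | U.bd i (Finsupp.single e 1) (rep i b) ≠ 0} := by
        intro e he
        refine ⟨n⁻¹ • e, ?_, smul_inv_smul n e⟩
        simp only [Set.mem_ofPred_eq] at he ⊢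
        rw [← bd_coeff U i n, smul_inv_smul]
        exact he
      refine (Set.encard_le_encard h1).trans ((Set.encard_image_le _ _).trans ?_)
      rw [← (hfin (rep i b)).cast_ncard_eq]
      exact_mod_cast Finset.single_le_sum
        (f := fun b => {e : U.E (i + 1) | U.bd i (Finsupp.single e 1) (rep i b) ≠ 0}.ncard)
        (fun _ _ => Nat.zero_le _) (Finset.mem_univ b)
    apply schur (fun e => U.bd i (Finsupp.single e 1)) Set.univ (max m₁ m₂)
    · intro e _
      exact (hm₁ e).trans (by exact_mod_cast le_max_left _ _)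
    · intro f
      refine le_trans (Set.encard_le_encard ?_) ((hm₂ f).trans (by exact_mod_cast le_max_right _ _))
      intro e he
      exact he.2
    · exact hv
    · intro e _
      rfl
    · intro e he
      exact absurd (Set.mem_univ e) he

end

end Pool.Agent.Q111.FT
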