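import Pool.Agent.Q111.FT.Gap

/-! # Project FT, jobs RETR and GOOD -/

set_option autoImplicit false

namespace Pool.Agent.Q111.FT

open Pool.Agent.Q169.FT

/-- evaluation of a cochain on a chain -/
noncomputable def ev {B : Type} (c : B → ℂ) : (B →₀ ℤ) →+ ℂ :=
  Finsupp.liftAddHom (fun f => (AddMonoidHom.mulRight (c f)).comp (Int.castAddHom ℂ))

theorem ev_apply {B : Type} (c : B → ℂ) (x : B →₀ ℤ) :
    ev c x = x.sum fun f n => ((n : ℤ) : ℂ) * c f := rfl

theorem ev_sum {A B : Type} (c : B → ℂ) (x : A →₀ ℤ) (g : A → (B →₀ ℤ)) :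
    ev c (x.sum fun f n => n • g f) = x.sum fun f n => ((n : ℤ) : ℂ) * ev c (g f) := by
  unfold Finsupp.sum
  rw [map_sum]
  apply Finset.sum_congr rfl
  intro f _
  rw [map_zsmul, zsmul_eq_mul]

theorem cob_eq {E : ℕ → Type} (bd : ∀ i, E (i + 1) → (E i →₀ ℤ)) (i : ℕ) (c : E i → ℂ)
    (e : E (i + 1)) : cob bd i c e = ev c (bd i e) := rfl

theorem schur {α β : Type} (r : α → (β →₀ ℤ)) (B : Set α) (m : ℕ)
    (row : ∀ e ∈ B, ((r e).sum fun _ n => |n|) ≤ m) (col : ∀ f, {e ∈ B | r e f ≠ 0}.encard ≤ m)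
    (c : β → ℂ) (hc : Memℓp c 2) (c' : α → ℂ) (h1 : ∀ e ∈ B, c' e = ev c (r e))
    (h2 : ∀ e ∉ B, c' e = 0) : Memℓp c' 2 := by
  classical
  have hcs : Summable fun f => ‖c f‖ ^ 2 := by
    have := (memℓp_gen_iff (p := 2) (by norm_num)).1 hc
    simpa using this
  have e1 : ∀ e ∈ B, ‖c' e‖ ^ 2 ≤ m * ∑ f ∈ (r e).support, |((r e f : ℤ) : ℝ)| * ‖c f‖ ^ 2 := by
    intro e he
    have a1 : ‖c' e‖ ≤ ∑ f ∈ (r e).support, |((r e f : ℤ) : ℝ)| * ‖c f‖ := by
      rw [h1 e he, ev_apply]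
      refine (norm_sum_le _ _).trans (Finset.sum_le_sum fun f _ => ?_)
      rw [norm_mul, Complex.norm_intCast]
    have a2 : (∑ f ∈ (r e).support, |((r e f : ℤ) : ℝ)| * ‖c f‖) ^ 2 ≤
        (∑ f ∈ (r e).support, |((r e f : ℤ) : ℝ)|) *
          ∑ f ∈ (r e).support, |((r e f : ℤ) : ℝ)| * ‖c f‖ ^ 2 := by
      apply Finset.sum_sq_le_sum_mul_sum_of_sq_le_mul
      · intro f _
        positivity
      · intro f _
        positivity
      · intro f _
        apply le_of_eq
        ring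
    have a3 : (∑ f ∈ (r e).support, |((r e f : ℤ) : ℝ)|) ≤ m := by
      have := row e he
      unfold Finsupp.sum at this
      exact_mod_cast this
    have a4 : 0 ≤ ∑ f ∈ (r e).support, |((r e f : ℤ) : ℝ)| * ‖c f‖ ^ 2 :=
      Finset.sum_nonneg fun f _ => by positivity
    calc ‖c' e‖ ^ 2 ≤ (∑ f ∈ (r e).support, |((r e f : ℤ) : ℝ)| * ‖c f‖) ^ 2 :=
          pow_le_pow_left₀ (norm_nonneg _) a1 2
      _ ≤ _ := a2
      _ ≤ _ := mul_le_mul_of_nonneg_right a3 a4
  have e2 : ∀ e ∈ B, ∀ f, |((r e f : ℤ) : ℝ)| ≤ m := by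
    intro e he f
    by_cases hf : f ∈ (r e).support
    · have a1 : |r e f| ≤ (m : ℤ) := by
        refine le_trans ?_ (row e he)
        unfold Finsupp.sum
        exact Finset.single_le_sum (f := fun f => |r e f|) (fun g _ => abs_nonneg _) hf
      exact_mod_cast a1
    · rw [Finsupp.notMem_support_iff.1 hf]
      simp
  have e3 : ∀ (s : Finset α) (f : β),
      ∑ e ∈ s.filter (· ∈ B), |((r e f : ℤ) : ℝ)| ≤ m * m := by
    intro s f
    obtain ⟨T, hT⟩ : ∃ T, T = (s.filter (· ∈ B)).filter fun e => r e f ≠ 0 := ⟨_, rfl⟩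
    have b1 : ∑ e ∈ s.filter (· ∈ B), |((r e f : ℤ) : ℝ)| = ∑ e ∈ T, |((r e f : ℤ) : ℝ)| := by
      rw [hT]
      symm
      apply Finset.sum_filter_of_ne
      intro e _ hne h0
      apply hne
      rw [h0]
      simp
    have b2 : T.card ≤ m := by
      have b3 : (T : Set α) ⊆ {e ∈ B | r e f ≠ 0} := by
        intro e he
        rw [hT, Finset.mem_coe, Finset.mem_filter, Finset.mem_filter] at he
        exact ⟨he.1.2, he.2⟩
      have b4 := (Set.encard_le_encard b3).trans (col f)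
      rw [Set.encard_coe_eq_coe_finsetCard] at b4
      exact_mod_cast b4
    rw [b1]
    calc ∑ e ∈ T, |((r e f : ℤ) : ℝ)| ≤ ∑ e ∈ T, (m : ℝ) := by
          apply Finset.sum_le_sum
          intro e he
          rw [hT, Finset.mem_filter, Finset.mem_filter] at he
          exact e2 e he.1.2 f
      _ = T.card * m := by rw [Finset.sum_const, nsmul_eq_mul]
      _ ≤ m * m := mul_le_mul_of_nonneg_right (by exact_mod_cast b2) (by positivity)
  rw [memℓp_gen_iff (by norm_num)]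
  have goal : Summable fun e => ‖c' e‖ ^ 2 := by
    apply summable_of_sum_le (c := (m : ℝ) * (m * m * ∑' f, ‖c f‖ ^ 2))
    · intro e
      positivity
    intro s
    have b0 : ∑ e ∈ s, ‖c' e‖ ^ 2 = ∑ e ∈ s.filter (· ∈ B), ‖c' e‖ ^ 2 := by
      symm
      apply Finset.sum_filter_of_ne
      intro e _ hne
      by_contra hB
      apply hne
      rw [h2 e hB]
      simp
    obtain ⟨F, hF⟩ : ∃ F, F = (s.filter (· ∈ B)).biUnion fun e => (r e).support := ⟨_, rfl⟩
    rw [b0]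
    calc ∑ e ∈ s.filter (· ∈ B), ‖c' e‖ ^ 2
        ≤ ∑ e ∈ s.filter (· ∈ B), m * ∑ f ∈ F, |((r e f : ℤ) : ℝ)| * ‖c f‖ ^ 2 := by
          apply Finset.sum_le_sum
          intro e he
          refine (e1 e (Finset.mem_filter.1 he).2).trans
            (mul_le_mul_of_nonneg_left ?_ (by positivity))
          apply Finset.sum_le_sum_of_subset_of_nonneg
          · rw [hF]
            exact Finset.subset_biUnion_of_mem (fun e => (r e).support) he
          · intro f _ _
            positivity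
      _ = m * ∑ f ∈ F, (∑ e ∈ s.filter (· ∈ B), |((r e f : ℤ) : ℝ)|) * ‖c f‖ ^ 2 := by
          rw [← Finset.mul_sum, Finset.sum_comm]
          congr 1
          apply Finset.sum_congr rfl
          intro f _
          rw [Finset.sum_mul]
      _ ≤ m * ∑ f ∈ F, (m * m) * ‖c f‖ ^ 2 := by
          apply mul_le_mul_of_nonneg_left _ (by positivity)
          apply Finset.sum_le_sum
          intro f _
          exact mul_le_mul_of_nonneg_right (e3 s f) (by positivity)
      _ = m * (m * m * ∑ f ∈ F, ‖c f‖ ^ 2) := by rw [← Finset.mul_sum]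
      _ ≤ m * (m * m * ∑' f, ‖c f‖ ^ 2) := by
          apply mul_le_mul_of_nonneg_left _ (by positivity)
          apply mul_le_mul_of_nonneg_left _ (by positivity)
          exact hcs.sum_le_tsum F fun f _ => by positivity
  simpa using goal

theorem cob_hat {E : ℕ → Type} (bd : ∀ i, E (i + 1) → (E i →₀ ℤ)) (B A : ∀ i, Set (E i))
    (r : ∀ i, E i → (E i →₀ ℤ)) (m : ℕ) (hB : IsSub bd B) (hR : Retr bd B A r m) (i : ℕ)
    (c ĉ : E i → ℂ) (hc : ∀ e ∈ B i, ĉ e = ev c (r i e))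
    (hz : ∀ e ∈ A (i + 1), cob bd i c e = 0) (e : E (i + 1)) (he : e ∈ B (i + 1)) :
    cob bd i ĉ e = 0 := by
  have h1 : cob bd i ĉ e = (bd i e).sum fun f n => ((n : ℤ) : ℂ) * ev c (r i f) := by
    unfold cob
    apply Finsupp.sum_congr
    intro f hf
    rw [hc f (hB i e f he (Finsupp.mem_support_iff.1 hf))]
  rw [h1, ← ev_sum, ← hR.chain i e he, ev_sum]
  unfold Finsupp.sum
  apply Finset.sum_eq_zero
  intro g hg
  have h2 := hz g (hR.supp (i + 1) e he g (Finsupp.mem_support_iff.1 hg))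
  rw [cob_eq] at h2
  simp only
  rw [h2, mul_zero]

theorem retr : S_RETR := by
  intro E bd B A r m hB hR hex
  classical
  obtain ⟨h0, hs⟩ := hex
  have hat : ∀ (i : ℕ) (c : E i → ℂ), Memℓp c 2 → ∃ ĉ : E i → ℂ, Memℓp ĉ 2 ∧
      (∀ e ∈ B i, ĉ e = ev c (r i e)) ∧ ∀ e ∈ A i, ĉ e = c e := by
    intro i c hc
    refine ⟨fun e => if e ∈ B i then ev c (r i e) else 0, ?_, ?_, ?_⟩
    · apply schur (r i) (B i) m (hR.row i) (hR.col i) c hc
      · intro e he
        exact if_pos he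
      · intro e he
        exact if_neg he
    · intro e he
      exact if_pos he
    · intro e he
      simp only [if_pos (hR.le i he)]
      rw [hR.id i e he, ev_apply, Finsupp.sum_single_index]
      · simp
      · simp
  refine ⟨?_, ?_⟩
  · intro c hc _ hz e he
    obtain ⟨ĉ, h1, h2, h3⟩ := hat 0 c hc
    rw [← h3 e he]
    exact h0 ĉ h1 (by simp) (cob_hat bd B A r m hB hR 0 c ĉ h2 hz) e (hR.le 0 he)
  · intro i c hc _ hz
    obtain ⟨ĉ, h1, h2, h3⟩ := hat (i + 1) c hc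
    obtain ⟨c', h4, h5, h6⟩ := hs i ĉ h1 (by simp)
      (cob_hat bd B A r m hB hR (i + 1) c ĉ h2 hz)
    refine ⟨c', h4, h5, fun e he => ?_⟩
    rw [← h3 e he]
    exact h6 e (hR.le _ he)

end Pool.Agent.Q111.FT
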